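import Pool.Agent.W102.TD.Defs

set_option autoImplicit false

namespace Pool.Agent.W409.TD

theorem LIN : Pool.Agent.W102.TD.LIN := by
  intro F _ _ _ m hm l
  have hfd : FiniteDimensional (ZMod 2) F := Module.Finite.of_finite
  have hcard : Fintype.card F = 2 ^ Module.finrank (ZMod 2) F := by
    have h := Module.card_eq_pow_finrank (K := ZMod 2) (V := F)
    rwa [ZMod.card] at h
  have hfr : Module.finrank (ZMod 2) F = m := by
    rw [hcard] at hm
    exact Nat.pow_right_injective le_rfl hm
  have hnd := traceForm_nondegenerate (ZMod 2) F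
  obtain ⟨c, hc⟩ : ∃ c : F, ∀ x : F, Algebra.trace (ZMod 2) F (c * x) = l x := by
    refine ⟨((Algebra.traceForm (ZMod 2) F).toDual hnd).symm l, fun x => ?_⟩
    rw [← Algebra.traceForm_apply]
    exact LinearMap.BilinForm.apply_toDual_symm_apply (hB := hnd) l x
  refine ⟨fun k => c ^ (2 ^ k), fun x => ?_⟩
  rw [← hc x, FiniteField.algebraMap_trace_eq_sum_pow, hfr, Nat.card_zmod]
  exact Finset.sum_congr rfl fun k _ => mul_pow c x _

end Pool.Agent.W409.TD
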